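import Pool.Agent.L5helper32.GP.Defs
import Pool.Agent.L5helper64.GPLink
import Pool.Agent.L5helper50.GPExist
import Pool.Agent.L5helper83.GPLink

set_option autoImplicit false

open Finset MeasureTheory ProbabilityTheory

namespace Pool.Agent.L5helper32.GP

open Pool.Agent.L5helper32.GR (Root w pr sg Dep lev q)

/-- The digits of the random profinite integers; zero if the base is not prime. -/
def digit {Ω : Type} (U : ℕ → ℕ → Ω → ℕ) (i : ℕ × ℕ × ℕ) (ω : Ω) : ℕ :=
  if i.2.1.Prime then U i.1 (i.2.1 ^ (i.2.2 + 1)) ω / i.2.1 ^ i.2.2 else 0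

variable {Ω : Type} [MeasurableSpace Ω] {μ : Measure Ω} [IsProbabilityMeasure μ]
  {U : ℕ → ℕ → Ω → ℕ}

/-- The digits are independent and uniform. -/
theorem digit_res (h : Prof μ U) : Res μ (digit U) :=
  Digit.digit_res_of h (digit U) fun _ _ => rfl

theorem digit_zero (h : Prof μ U) (ω : Ω) (c : ℕ) {r : ℕ} (hr : r.Prime) :
    res (digit U) ω c r 0 = U c r ω :=
  Pool.Agent.L5helper64.GPLink.digit_zero h ω c hr

theorem tr_digit (h : Prof μ U) (ω : Ω) (c : ℕ) {r : ℕ} (hr : r.Prime) (v : ℕ) :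
    tr (res (digit U) ω c) r v = U c (r ^ v) ω :=
  Pool.Agent.L5helper64.GPLink.tr_digit h ω c hr v

theorem jump_digit (h : Prof μ U) (p : ℕ) (ω : Ω) (c : ℕ) {x : ℕ} (hx : x ≠ 0) :
    jump p (res (digit U) ω c) x = Nat.gcd x ((U c x ω + 1) ^ p - 1) :=
  Pool.Agent.L5helper64.GPLink.jump_digit h p ω c hx

theorem dseq_digit (h : Prof μ U) (p : ℕ) (ω : Ω) (n : ℕ) :
    dseq p (res (digit U) ω) n = seq p (fun c m => U c m ω) n :=
  Pool.Agent.L5helper64.GPLink.dseq_digit h p ω n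

end Pool.Agent.L5helper32.GP
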