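import Pool.Agent.L5helper32.GP.Recover
import Pool.Agent.L5helper32.GP.Five
import Pool.Agent.L5helper32.GP.Link
import Pool.Agent.L5helper32.GR.Final

set_option autoImplicit false

open Finset MeasureTheory ProbabilityTheory

namespace Pool.Agent.L5helper32.GP

open Pool.Agent.L5helper32.GR (Root w pr sg Dep lev q root_of_q root_zero sqrt_q)

/-- Every zero after the first one is the next zero of an earlier zero. -/
theorem prev_zero {p : ℕ} (hp : 1 ≤ p) (T : ℕ → ℕ → ℕ → ℕ) {n : ℕ} (hn : 3 ≤ n)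
    (h0 : dseq p T n = 0) : ∃ z, 2 ≤ z ∧ z < n ∧ dseq p T z = 0 ∧ nextZero p T z = n := by
  classical
  have hne : ((range n).filter fun z => 2 ≤ z ∧ dseq p T z = 0).Nonempty :=
    ⟨2, by simp only [mem_filter, mem_range]; exact ⟨by omega, le_rfl, dseq_two p T⟩⟩
  obtain ⟨z, hz, hmax⟩ := Finset.exists_max_image _ (fun z => z) hne
  simp only [mem_filter, mem_range] at hz hmax
  refine ⟨z, hz.2.1, hz.1, hz.2.2, ?_⟩
  obtain ⟨h1, h2⟩ := dseq_next hp T (z := z) (by omega) hz.2.2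
  have hlt := lt_nextZero p T z
  rcases lt_trichotomy (nextZero p T z) n with h | h | h
  · have := hmax (nextZero p T z) ⟨h, by omega, h1⟩
    omega
  · exact h
  · exact absurd h0 (h2 n hz.1 h)

theorem nprime_of_sv {p M : ℕ} {T : ℕ → ℕ → ℕ → ℕ} {n : ℕ} (h : Sv p M T n) (hn : n ≤ M) :
    DNPrime (T n) n := by
  intro r hr hr2 h0
  have hrn : r ≤ n := le_trans (Nat.le_self_pow (by norm_num) r) hr2
  apply h r hr (hrn.trans hn)
  rw [h0]; exact root_zero p r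

theorem qprime_of_sv {p M : ℕ} (hp : p.Prime) (hp3 : p ≤ 3) {T : ℕ → ℕ → ℕ → ℕ} {n : ℕ}
    (h : Sv p M T n) (hn : n + 2 ≤ M) : DQPrime p (T n) n := by
  intro r hr hr2 hd
  exact h r hr ((sqrt_q hp hp3 hr2).trans hn) (root_of_q hd)

variable {Ω : Type} [MeasurableSpace Ω] {μ : Measure Ω} [IsProbabilityMeasure μ]
  {T : ℕ × ℕ × ℕ → Ω → ℕ}

theorem final_le_three {p : ℕ} (hp : p.Prime) (hp3 : p ≤ 3) (h : Res μ T) :
    ∀ᵐ ω ∂μ, ∃ N, ∀ n ≥ N, dseq p (res T ω) n = 0 →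
      DNPrime (res T ω n) n ∧ DQPrime p (res T ω n) n := by
  have hp1 : 1 ≤ p := hp.one_lt.le
  filter_upwards [all_good hp h] with ω hω
  rw [Filter.eventually_atTop] at hω
  obtain ⟨N, hN⟩ := hω
  refine ⟨lev p N + 3, ?_⟩
  intro n hn h0
  obtain ⟨z, hz2, hzn, hz0, hnext⟩ := prev_zero hp1 (res T ω) (by omega) h0
  have hle := nextZero_le hp1 (res T ω) (z := z) (by omega)
  have hzN : N ≤ z := by
    by_contra hlt
    push Not at hlt
    have : lev p z ≤ lev p N := by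
      unfold lev
      have := Nat.pow_le_pow_left (show z + 1 ≤ N + 1 by omega) p
      omega
    omega
  have hgood := (hN z hzN hz0).2
  rw [hnext] at hgood hle
  exact ⟨nprime_of_sv hgood (by omega), qprime_of_sv hp hp3 hgood (by omega)⟩

/-- A property of the residues of the level `nextZero` in a winning descent is measurable. -/
theorem meas_H {p : ℕ} (hp : 1 ≤ p) (P : ℕ → Set (ℕ × ℕ × ℕ → ℕ)) (hP : ∀ n, ∃ S, Dep S (P n))
    (z : ℕ) : MeasurableSet {f : ℕ × ℕ × ℕ → ℕ | 1 ≤ z ∧ WinRun p (cur f) z ∧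
      f ∈ P (nextZero p (cur f) z)} := by
  rcases Nat.lt_or_ge z 1 with hz | hz
  · have : {f : ℕ × ℕ × ℕ → ℕ | 1 ≤ z ∧ WinRun p (cur f) z ∧ f ∈ P (nextZero p (cur f) z)} = ∅ := by
      ext f
      simp only [Set.mem_ofPred_eq, Set.mem_empty_iff_false, iff_false, not_and]
      intro h; omega
    rw [this]; exact MeasurableSet.empty
  · have : {f : ℕ × ℕ × ℕ → ℕ | 1 ≤ z ∧ WinRun p (cur f) z ∧ f ∈ P (nextZero p (cur f) z)}
        = ⋃ n, ({f | WinRun p (cur f) z ∧ nextZero p (cur f) z = n} ∩ P n) := by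
      ext f
      simp only [Set.mem_ofPred_eq, Set.mem_iUnion, Set.mem_inter_iff]
      constructor
      · rintro ⟨_, h1, h2⟩
        exact ⟨_, ⟨h1, rfl⟩, h2⟩
      · rintro ⟨n, ⟨h1, rfl⟩, h2⟩
        exact ⟨hz, h1, h2⟩
    rw [this]
    apply MeasurableSet.iUnion
    intro n
    obtain ⟨S, hS⟩ := hP n
    exact (dep_measurable (dep_winrun_eq hp hz n)).inter (dep_measurable hS)

theorem dep_q (p n : ℕ) : Dep (bx {n} (q p n + n + 2))
    {f : ℕ × ℕ × ℕ → ℕ | ¬ DQPrime p (cur f n) n} := by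
  intro f g hfg
  have h1 : ∀ r, r ^ 2 ≤ q p n → f (n, r, 0) = g (n, r, 0) := by
    intro r hr
    apply hfg
    have : r ≤ q p n := le_trans (Nat.le_self_pow (by norm_num) r) hr
    exact mem_product.2 ⟨mem_singleton_self _, mem_product.2 ⟨mem_range.2 (by show r < q p n + n + 2; omega), mem_range.2 (by show 0 < q p n + n + 2; omega)⟩⟩
  simp only [Set.mem_ofPred_eq, DQPrime, cur]
  rw [not_iff_not]
  apply forall_congr'; intro r
  apply imp_congr_right; intro _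
  apply imp_congr_right; intro hr
  rw [h1 r hr]

theorem dep_nq (p n : ℕ) : Dep (bx {n} (q p n + n + 2))
    {f : ℕ × ℕ × ℕ → ℕ | DNPrime (cur f n) n ∧ DQPrime p (cur f n) n} := by
  intro f g hfg
  have h1 : ∀ r, r ^ 2 ≤ q p n ∨ r ^ 2 ≤ n → f (n, r, 0) = g (n, r, 0) := by
    intro r hr
    apply hfg
    have : r ≤ q p n + n := by
      have := Nat.le_self_pow (show 2 ≠ 0 by norm_num) r
      omega
    exact mem_product.2 ⟨mem_singleton_self _, mem_product.2 ⟨mem_range.2 (by show r < q p n + n + 2; omega), mem_range.2 (by show 0 < q p n + n + 2; omega)⟩⟩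
  simp only [Set.mem_ofPred_eq, DQPrime, DNPrime, cur]
  apply and_congr
  · apply forall_congr'; intro r
    apply imp_congr_right; intro _
    apply imp_congr_right; intro hr
    rw [h1 r (Or.inr hr)]
  · apply forall_congr'; intro r
    apply imp_congr_right; intro _
    apply imp_congr_right; intro hr
    rw [h1 r (Or.inl hr)]

theorem final_io {p : ℕ} (hp : p.Prime) (h : Res μ T) (P : ℕ → Set (ℕ × ℕ × ℕ → ℕ))
    (hP : ∀ n, ∃ S, Dep S (P n)) (hc : ∃ c : ℝ, 0 < c ∧ ∃ z₁ : ℕ, ∀ z ≥ z₁, ∀ (R : ℕ)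
      (A : Set (ℕ × ℕ × ℕ → ℕ)), Dep (bx (range (lev p (z - 1) + 1)) R) A →
      c * Pr μ T A ≤ Pr μ T (A ∩ {f | WinRun p (cur f) z ∧ f ∈ P (nextZero p (cur f) z)})) :
    ∀ᵐ ω ∂μ, ∀ N, ∃ n ≥ N, dseq p (res T ω) n = 0 ∧ (fun i => T i ω) ∈ P n := by
  have hp1 : 1 ≤ p := hp.one_lt.le
  obtain ⟨c, hc, z₁, hA⟩ := hc
  have := inf_often hp h (H := fun z => {f : ℕ × ℕ × ℕ → ℕ | 1 ≤ z ∧ WinRun p (cur f) z ∧
      f ∈ P (nextZero p (cur f) z)}) (meas_H hp1 P hP) hc (z₁ := z₁ + 1) (by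
    intro z hz R A hdep
    have e : {f : ℕ × ℕ × ℕ → ℕ | 1 ≤ z ∧ WinRun p (cur f) z ∧ f ∈ P (nextZero p (cur f) z)}
        = {f | WinRun p (cur f) z ∧ f ∈ P (nextZero p (cur f) z)} := by
      ext f
      simp only [Set.mem_ofPred_eq]
      constructor
      · exact fun h => h.2
      · exact fun h => ⟨by omega, h⟩
    rw [e]
    exact hA z (by omega) R A hdep)
  filter_upwards [this] with ω hω N
  rw [Filter.frequently_atTop] at hω
  obtain ⟨z, hz, h0, hz1, _, hPz⟩ := hω N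
  refine ⟨nextZero p (res T ω) z, ?_, (dseq_next hp1 (res T ω) hz1 h0).1, hPz⟩
  have := lt_nextZero p (res T ω) z
  omega

theorem final_bad {p : ℕ} (hp : p.Prime) (h5 : 5 ≤ p) (h : Res μ T) :
    ∀ᵐ ω ∂μ, ∀ N, ∃ n ≥ N, dseq p (res T ω) n = 0 ∧ ¬ DQPrime p (res T ω n) n :=
  final_io hp h (fun n => {f | ¬ DQPrime p (cur f n) n}) (fun n => ⟨_, dep_q p n⟩)
    (win_bad hp h5 h)

theorem final_good {p : ℕ} (hp : p.Prime) (h : Res μ T) :
    ∀ᵐ ω ∂μ, ∀ N, ∃ n ≥ N, dseq p (res T ω) n = 0 ∧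
      (DNPrime (res T ω n) n ∧ DQPrime p (res T ω n) n) :=
  final_io hp h (fun n => {f | DNPrime (cur f n) n ∧ DQPrime p (cur f n) n})
    (fun n => ⟨_, dep_nq p n⟩) (win_good hp h)

end Pool.Agent.L5helper32.GP
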