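import Pool.Agent.L5helper32.GR.Defs

/-!
# The gcd recursion with random integers

The recursion of the problem is `a n = a (n - 1) - gcd (a (n - 1)) (n ^ p - 1)` for `a (n - 1) > 0`.
With `c = a (n - 1) + (n - 1)` the gcd is `gcd x ((c + 1) ^ p - 1)`, where `x = a (n - 1)`; it depends
only on the residue of `c` modulo `x`.  In the model every integer `c` is replaced by a random element
of the profinite integers, given by its residues `U c m` modulo all `m`.  By the Chinese remainder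
theorem it is given by its digits in the bases `r` prime, which are independent and uniform.
-/

set_option autoImplicit false

open Finset MeasureTheory ProbabilityTheory

namespace Pool.Agent.L5helper32.GP

open Pool.Agent.L5helper32.GR (Root w pr sg Dep lev q)

/-! ### The model -/

/-- `U c m` is the residue modulo `m` of a random profinite integer `U c`, uniformly distributed; the
`U c` are independent. -/
structure Prof {Ω : Type} [MeasurableSpace Ω] (μ : Measure Ω) (U : ℕ → ℕ → Ω → ℕ) : Prop where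
  meas : ∀ c m, Measurable (U c m)
  compat : ∀ c m m', 0 < m' → m ∣ m' → ∀ ω, U c m ω = U c m' ω % m
  unif : ∀ c m, 0 < m → ∀ t < m, μ.real {ω | U c m ω = t} = 1 / m
  indep : iIndepFun (fun (c : ℕ) (ω : Ω) (m : ℕ) => U c m ω) μ

/-- The recursion of the problem, where `U c m` is the residue of `c` modulo `m`. -/
def seq (p : ℕ) (U : ℕ → ℕ → ℕ) : ℕ → ℕ
  | 0 => 0
  | 1 => 1
  | n + 2 => if seq p U (n + 1) = 0 then (n + 2) ^ p - 1
      else seq p U (n + 1) -
        Nat.gcd (seq p U (n + 1)) ((U (seq p U (n + 1) + (n + 1)) (seq p U (n + 1)) + 1) ^ p - 1)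

/-- The number `n` is prime for the residues `U m` of `n` modulo `m`: no prime `r` with `r ^ 2 ≤ n`
divides `n`, that is, has the residue `0`. -/
def NPrime (U : ℕ → ℕ) (n : ℕ) : Prop := ∀ r, r.Prime → r ^ 2 ≤ n → U r ≠ 0

/-- The number `q_p(n)` is prime for the residues `U m` of `n` modulo `m`: no prime `r` with
`r ^ 2 ≤ q_p(n)` divides `q_p(U r)`. -/
def QPrime (p : ℕ) (U : ℕ → ℕ) (n : ℕ) : Prop := ∀ r, r.Prime → r ^ 2 ≤ q p n → ¬ r ∣ q p (U r)

/-! ### Digits -/

/-- The number with the digits `D r 0, …, D r (v - 1)` in base `r`. -/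
def tr (D : ℕ → ℕ → ℕ) (r v : ℕ) : ℕ := ∑ i ∈ range v, D r i * r ^ i

/-- The number which is subtracted from `x`, in terms of the digits of the level. -/
def jump (p : ℕ) (D : ℕ → ℕ → ℕ) (x : ℕ) : ℕ :=
  ∏ r ∈ x.primeFactors, Nat.gcd (r ^ x.factorization r) ((tr D r (x.factorization r) + 1) ^ p - 1)

/-- The recursion in terms of the digits `T c r k` of the level `c` in base `r`. -/
def dseq (p : ℕ) (T : ℕ → ℕ → ℕ → ℕ) : ℕ → ℕ
  | 0 => 0
  | 1 => 1
  | n + 2 => if dseq p T (n + 1) = 0 then (n + 2) ^ p - 1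
      else dseq p T (n + 1) - jump p (T (dseq p T (n + 1) + (n + 1))) (dseq p T (n + 1))

/-- The value of the recursion at the time `z + 1 + i`, after the zero `z`. -/
def val (p : ℕ) (T : ℕ → ℕ → ℕ → ℕ) (z : ℕ) : ℕ → ℕ
  | 0 => (z + 1) ^ p - 1
  | i + 1 => val p T z i - jump p (T (val p T z i + (z + 1 + i))) (val p T z i)

/-- The next zero after the zero `z`. -/
noncomputable def nextZero (p : ℕ) (T : ℕ → ℕ → ℕ → ℕ) (z : ℕ) : ℕ :=
  z + 1 + sInf {i | val p T z i = 0}

/-- One step, for the pairs (value, level). -/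
def step (p : ℕ) (T : ℕ → ℕ → ℕ → ℕ) (s : ℕ × ℕ) : ℕ × ℕ :=
  (s.1 - jump p (T s.2) s.1, s.2 + 1 - jump p (T s.2) s.1)

/-- The last level of the descent from the value `x` in the level `c`. -/
def fin (p : ℕ) (T : ℕ → ℕ → ℕ → ℕ) (x c : ℕ) : ℕ := ((step p T)^[x] (x, c)).2

/-- No prime up to `M` has a root as residue of the level `c`. -/
def Sv (p M : ℕ) (T : ℕ → ℕ → ℕ → ℕ) (c : ℕ) : Prop :=
  ∀ r, r.Prime → r ≤ M → ¬ Root p r (T c r 0)

/-- The descent after the zero `z` is good. -/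
def GoodRun (p : ℕ) (T : ℕ → ℕ → ℕ → ℕ) (z : ℕ) : Prop :=
  lev p z ≤ 4 * nextZero p T z ∧ Sv p (lev p z + 2) T (nextZero p T z)

/-- The descent after the zero `z` ends above all levels of the earlier descents. -/
def WinRun (p : ℕ) (T : ℕ → ℕ → ℕ → ℕ) (z : ℕ) : Prop :=
  lev p (z - 1) < nextZero p T z ∧ Sv p (lev p z + 2) T (nextZero p T z)

/-- Independent uniform digits `T (c, r, k)` of the levels `c` in the prime bases `r`. -/
structure Res {Ω : Type} [MeasurableSpace Ω] (μ : Measure Ω) (T : ℕ × ℕ × ℕ → Ω → ℕ) : Prop where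
  meas : ∀ i, Measurable (T i)
  indep : iIndepFun T μ
  unif : ∀ c r k : ℕ, r.Prime → ∀ t < r, μ.real {ω | T (c, r, k) ω = t} = 1 / r

/-- The digits as a function of the level, the prime and the place. -/
def res {Ω : Type} (T : ℕ × ℕ × ℕ → Ω → ℕ) (ω : Ω) (c r k : ℕ) : ℕ := T (c, r, k) ω

/-- The two forms of a family of digits. -/
def cur (f : ℕ × ℕ × ℕ → ℕ) (c r k : ℕ) : ℕ := f (c, r, k)

/-- The probability of a property of the family of digits. -/
noncomputable def Pr {Ω : Type} [MeasurableSpace Ω] (μ : Measure Ω) (T : ℕ × ℕ × ℕ → Ω → ℕ)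
    (A : Set (ℕ × ℕ × ℕ → ℕ)) : ℝ := μ.real {ω | (fun i => T i ω) ∈ A}

/-- The first zero after `m` is `z`. -/
def FZ (p m z : ℕ) : Set (ℕ × ℕ × ℕ → ℕ) := {f |
  m < z ∧ dseq p (cur f) z = 0 ∧ ∀ n, m < n → n < z → dseq p (cur f) n ≠ 0}

/-- One of the first `k` descents from the zero `z` on is not good. -/
def BadK (p : ℕ) (f : ℕ × ℕ × ℕ → ℕ) : ℕ → ℕ → Prop
  | 0, _ => False
  | k + 1, z => ¬ GoodRun p (cur f) z ∨ BadK p f k (nextZero p (cur f) z)

/-- The indices with level in `S`, prime and place below `R`. -/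
def bx (S : Finset ℕ) (R : ℕ) : Finset (ℕ × ℕ × ℕ) := S ×ˢ range R ×ˢ range R

end Pool.Agent.L5helper32.GP
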