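import Pool.Agent.L5helper37.GPDet

set_option autoImplicit false

open Finset MeasureTheory ProbabilityTheory

namespace Pool.Agent.L5helper32.GP

open Pool.Agent.L5helper32.GR (Root w pr sg Dep lev q)

theorem step_zero (p : ℕ) (T : ℕ → ℕ → ℕ → ℕ) (c : ℕ) : step p T (0, c) = (0, c) := by
  simp [step, jump_zero]

theorem iter_zero (p : ℕ) (T : ℕ → ℕ → ℕ → ℕ) (c m : ℕ) : (step p T)^[m] (0, c) = (0, c) :=
  Function.iterate_fixed (step_zero p T c) m

theorem iter_fst (p : ℕ) (T : ℕ → ℕ → ℕ → ℕ) : ∀ (m x c : ℕ), x ≤ m →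
    ((step p T)^[m] (x, c)).1 = 0 := by
  intro m
  induction m with
  | zero =>
    intro x c hx
    obtain rfl : x = 0 := by omega
    rfl
  | succ m ih =>
    intro x c hx
    rw [Function.iterate_succ_apply]
    refine ih _ _ ?_
    have := jump_pos p (T c) x
    show x - jump p (T c) x ≤ m
    omega

theorem iter_eq (p : ℕ) (T : ℕ → ℕ → ℕ → ℕ) {m x : ℕ} (c : ℕ) (h : x ≤ m) :
    (step p T)^[m] (x, c) = (0, fin p T x c) := by
  obtain ⟨k, rfl⟩ := Nat.exists_eq_add_of_le' h
  rw [Function.iterate_add_apply]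
  have h1 : (step p T)^[x] (x, c) = (0, fin p T x c) :=
    Prod.ext (iter_fst p T x x c le_rfl) rfl
  rw [h1, iter_zero]

theorem fin_zero (p : ℕ) (T : ℕ → ℕ → ℕ → ℕ) (c : ℕ) : fin p T 0 c = c := rfl

theorem fin_step (p : ℕ) (T : ℕ → ℕ → ℕ → ℕ) {x : ℕ} (hx : x ≠ 0) (c : ℕ) :
    fin p T x c = fin p T (x - jump p (T c) x) (c + 1 - jump p (T c) x) := by
  obtain ⟨m, rfl⟩ := Nat.exists_eq_succ_of_ne_zero hx
  have h1 := jump_pos p (T c) m.succ
  have h2 : fin p T m.succ c = ((step p T)^[m] (step p T (m.succ, c))).2 := by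
    unfold fin
    rw [Function.iterate_succ_apply]
  rw [h2]
  have h3 : step p T (m.succ, c) =
    (m.succ - jump p (T c) m.succ, c + 1 - jump p (T c) m.succ) := rfl
  rw [h3, iter_eq p T _ (show m.succ - jump p (T c) m.succ ≤ m by omega)]

theorem fin_run (p : ℕ) (T : ℕ → ℕ → ℕ → ℕ) {x c i : ℕ} (hi : i ≤ x)
    (h : ∀ i' < i, jump p (T c) (x - i') = 1) : fin p T x c = fin p T (x - i) c := by
  induction i with
  | zero => rfl
  | succ i ih =>
    rw [ih (by omega) (fun i' hi' => h i' (by omega)), fin_step p T (by omega) c,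
      h i (by omega)]
    congr 1

theorem fin_of_Sv (p : ℕ) (T : ℕ → ℕ → ℕ → ℕ) {x c M : ℕ} (hx : x ≤ M) (h : Sv p M T c) :
    fin p T x c = c := by
  rw [fin_run p T (c := c) (le_refl x) ?_, Nat.sub_self, fin_zero]
  intro i' hi'
  rw [jump_eq_one_iff]
  intro r hr hrx hx0
  have := Nat.le_of_dvd (Nat.pos_of_ne_zero hx0) hrx
  exact h r hr (by omega)

theorem exists_kill {p : ℕ} {D : ℕ → ℕ → ℕ} {x y r : ℕ} (hr : r.Prime) (hry : r ≤ y) (hyx : y ≤ x)
    (hroot : Root p r (D r 0)) :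
    ∃ i < y, (∀ i' < i, jump p D (x - i') = 1) ∧ 2 ≤ jump p D (x - i) := by
  have hr0 := hr.pos
  have hmod : x % r < r := Nat.mod_lt _ hr0
  have hP : 2 ≤ jump p D (x - x % r) := by
    have h1 := jump_pos p D (x - x % r)
    by_contra hcon
    have h2 : jump p D (x - x % r) = 1 := by omega
    refine (jump_eq_one_iff.mp h2) r hr (Nat.dvd_sub_mod x) ?_ hroot
    omega
  classical
  have hex : ∃ i, 2 ≤ jump p D (x - i) := ⟨_, hP⟩
  refine ⟨Nat.find hex, ?_, ?_, Nat.find_spec hex⟩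
  · have := Nat.find_min' hex hP
    omega
  · intro i' hi'
    have h1 := Nat.find_min hex hi'
    have h2 := jump_pos p D (x - i')
    omega

theorem fin_le (p : ℕ) (T : ℕ → ℕ → ℕ → ℕ) (x c : ℕ) : fin p T x c ≤ c := by
  induction x using Nat.strong_induction_on generalizing c with
  | _ x ih =>
    rcases Nat.eq_zero_or_pos x with rfl | hx
    · rw [fin_zero]
    · rw [fin_step p T hx.ne' c]
      have h1 := jump_pos p (T c) x
      refine (ih _ (by omega) _).trans ?_
      omega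

theorem fin_congr (p : ℕ) {T T' : ℕ → ℕ → ℕ → ℕ} {x c : ℕ}
    (h : ∀ c' ≤ c, ∀ r ≤ x, ∀ k < x, T c' r k = T' c' r k) : fin p T x c = fin p T' x c := by
  induction x using Nat.strong_induction_on generalizing c with
  | _ x ih =>
    rcases Nat.eq_zero_or_pos x with rfl | hx
    · rfl
    · have hj : jump p (T c) x = jump p (T' c) x := by
        exact jump_congr fun r hr k hk => h c le_rfl r hr k hk
      rw [fin_step p T hx.ne' c, fin_step p T' hx.ne' c, hj]
      have h1 := jump_pos p (T' c) x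
      exact ih _ (by omega) (fun c' hc' r hr k hk => h c' (by omega) r (by omega) k (by omega))

end Pool.Agent.L5helper32.GP
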