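import Pool.Agent.L5helper32.GP.Roots
import Pool.Agent.L5helper32.GP.Det
import Pool.Agent.L5helper9.GPExc
import Pool.Agent.L5helper97.GPExc
import Pool.Agent.L5helper33.GPExc

set_option autoImplicit false

open Finset MeasureTheory ProbabilityTheory

namespace Pool.Agent.L5helper32.GP

open Pool.Agent.L5helper32.GR (Root w pr sg Dep lev q)

/-- The first jump is large with small probability. -/
theorem exc {p : ℕ} (hp : p.Prime) : ∃ C : ℝ, 0 < C ∧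
    ∀ {Ω : Type} [MeasurableSpace Ω] (μ : Measure Ω) [IsProbabilityMeasure μ]
      (T : ℕ × ℕ × ℕ → Ω → ℕ), Res μ T → ∀ x c y G : ℕ, 1 ≤ G → x < G ^ 2 → y ≤ x →
      μ.real {ω | ∃ i < y, (∀ i' < i, jump p (res T ω c) (x - i') = 1) ∧
        G ≤ jump p (res T ω c) (x - i)} ≤ (C * (x : ℝ) ^ (3 / 4 : ℝ) + p * y) / G :=
  ExcOf.exc_of div_bound prob_jump exists_kill root_of_dvd_jump jump_dvd prob_root GR.w_le hp

theorem exc' {p : ℕ} (hp : p.Prime) {ε : ℝ} (hε : 0 < ε) : ∃ C : ℝ, 0 < C ∧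
    ∀ {Ω : Type} [MeasurableSpace Ω] (μ : Measure Ω) [IsProbabilityMeasure μ]
      (T : ℕ × ℕ × ℕ → Ω → ℕ), Res μ T → ∀ x c y G : ℕ, 1 ≤ G → y ≤ x →
      μ.real {ω | ∃ i < y, (∀ i' < i, jump p (res T ω c) (x - i') = 1) ∧
        G ≤ jump p (res T ω c) (x - i)} ≤ C * y * (x : ℝ) ^ ε / G :=
  ExcOf.exc'_of div_bound prob_jump hp hε

end Pool.Agent.L5helper32.GP
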