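import Pool.Agent.L5helper32.GP.Main
import Pool.Agent.L5helper32.GP.Exc
import Pool.Agent.L5helper32.GR.One
import Pool.Agent.L5helper32.GR.Win

set_option autoImplicit false

open Finset MeasureTheory ProbabilityTheory

namespace Pool.Agent.L5helper32.GP

open Pool.Agent.L5helper32.GR (Root w pr sg Dep lev q dep_meas dep_indep params params' lev_lower loglog_anti pow_succ_lower)

/-- One descent, in terms of the first level. -/
theorem one_lev {p : ℕ} (hp : p.Prime) : ∃ C : ℝ, 0 < C ∧ ∃ z₁ : ℕ, ∀ z ≥ z₁,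
    ∀ {Ω : Type} [MeasurableSpace Ω] (μ : Measure Ω) [IsProbabilityMeasure μ]
      (T : ℕ × ℕ × ℕ → Ω → ℕ), Res μ T → μ.real {ω | ¬ GoodRun p (res T ω) z}
        ≤ C * (Real.log (Real.log (lev p z : ℕ)) / Real.log (lev p z : ℕ)) := by
  obtain ⟨C₁, hC₁, hexc⟩ := exc hp
  obtain ⟨C, hC, Y₀, hpar⟩ := params hp C₁
  refine ⟨C, hC, Y₀ + 2, ?_⟩
  intro z hz Ω _ μ _ T h
  have hlow := lev_lower (p := p) (z := z) hp.two_le
  have hYz : Y₀ ≤ lev p z := by nlinarith
  obtain ⟨j, y, G, hG, hy, hYG, h8, hbound⟩ := hpar (lev p z) hYz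
  refine le_trans ?_ hbound
  have hp2 : 1 ≤ p := hp.one_lt.le
  set Y := lev p z with hY
  have hx : (z + 1) ^ p - 1 = Y - z - 1 := by
    have : 1 ≤ (z + 1) ^ p := Nat.one_le_pow _ _ (by omega)
    rw [hY, lev]; omega
  have hη : 0 ≤ (C₁ * (Y : ℝ) ^ (3 / 4 : ℝ) + p * y) / G := by positivity
  have hE : ∀ x c, x ≤ Y → y ≤ x → μ.real {ω | ∃ i < y,
      (∀ i' < i, jump p (res T ω c) (x - i') = 1) ∧ G ≤ jump p (res T ω c) (x - i)}
        ≤ (C₁ * (Y : ℝ) ^ (3 / 4 : ℝ) + p * y) / G := by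
    intro x c hxY hyx
    refine (hexc μ T h x c y G hG (by omega) hyx).trans ?_
    have : (x : ℝ) ^ (3 / 4 : ℝ) ≤ (Y : ℝ) ^ (3 / 4 : ℝ) :=
      Real.rpow_le_rpow (by positivity) (by exact_mod_cast hxY) (by norm_num)
    gcongr
  have hmain := main_induction hp h (M := Y + 2) (L := Y) (X := (Y + 3) / 4) (y := y) (G := G)
    (by omega) hη hE j ((z + 1) ^ p - 1) Y (by
      rw [hx]
      have h9 : z ≥ 2 := by omega
      have h10 : z * z ≥ 2 * z := by nlinarith
      have h11 : z ^ 2 = z * z := by ring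
      omega) (by omega) (by omega)
  refine le_trans (measureReal_mono ?_ (measure_ne_top _ _)) hmain
  intro ω hω hgood
  apply hω
  have e := nextZero_eq hp2 (res T ω) (z := z) (by omega)
  rw [GoodRun, e]
  refine ⟨?_, hgood.2⟩
  have := hgood.1
  rw [← hY]
  omega

/-- One descent. -/
theorem one {p : ℕ} (hp : p.Prime) : ∃ C : ℝ, 0 < C ∧ ∀ z ≥ 3,
    ∀ {Ω : Type} [MeasurableSpace Ω] (μ : Measure Ω) [IsProbabilityMeasure μ]
      (T : ℕ × ℕ × ℕ → Ω → ℕ), Res μ T → μ.real {ω | ¬ GoodRun p (res T ω) z}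
        ≤ C * (Real.log (Real.log z) / Real.log z) := by
  obtain ⟨C, hC, z₁, h⟩ := one_lev hp
  have hpos : ∀ z : ℕ, 3 ≤ z → 0 < Real.log (Real.log z) / Real.log z := by
    intro z hz
    have h1 : 1 < Real.log z := by
      rw [Real.lt_log_iff_exp_lt (by positivity)]
      have he : Real.exp 1 < 2.7182818286 := Real.exp_one_lt_d9
      have : (3 : ℝ) ≤ z := by exact_mod_cast hz
      linarith
    exact div_pos (Real.log_pos h1) (by linarith)
  refine ⟨C + ∑ z ∈ Ico 3 (z₁ + 16), (Real.log (Real.log z) / Real.log z)⁻¹, ?_, ?_⟩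
  · have : 0 ≤ ∑ z ∈ Ico 3 (z₁ + 16), (Real.log (Real.log z) / Real.log (z : ℝ))⁻¹ := by
      apply Finset.sum_nonneg
      intro z hz
      exact inv_nonneg.2 (hpos z (Finset.mem_Ico.1 hz).1).le
    linarith
  intro z hz Ω _ μ _ T hT
  have hS : 0 ≤ ∑ z ∈ Ico 3 (z₁ + 16), (Real.log (Real.log z) / Real.log (z : ℝ))⁻¹ := by
    apply Finset.sum_nonneg
    intro z hz
    exact inv_nonneg.2 (hpos z (Finset.mem_Ico.1 hz).1).le
  rcases lt_or_ge z (z₁ + 16) with hlt | hge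
  · have h1 : (Real.log (Real.log z) / Real.log z)⁻¹ ≤
        ∑ z ∈ Ico 3 (z₁ + 16), (Real.log (Real.log z) / Real.log (z : ℝ))⁻¹ := by
      apply Finset.single_le_sum (f := fun z : ℕ => (Real.log (Real.log z) / Real.log (z : ℝ))⁻¹)
      · intro z hz
        exact inv_nonneg.2 (hpos z (Finset.mem_Ico.1 hz).1).le
      · exact Finset.mem_Ico.2 ⟨hz, hlt⟩
    have h2 : μ.real {ω | ¬ GoodRun p (res T ω) z} ≤ 1 := measureReal_le_one
    have h3 := hpos z hz
    calc μ.real {ω | ¬ GoodRun p (res T ω) z} ≤ 1 := h2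
      _ = (Real.log (Real.log z) / Real.log z)⁻¹ * (Real.log (Real.log z) / Real.log z) := by
        rw [inv_mul_cancel₀ h3.ne']
      _ ≤ _ := by
        apply mul_le_mul_of_nonneg_right _ h3.le
        linarith
  · refine (h z (by omega) μ T hT).trans ?_
    have hz16 : (16 : ℝ) ≤ z := by exact_mod_cast (show 16 ≤ z by omega)
    have hzl : (z : ℝ) ≤ (lev p z : ℕ) := by
      have := lev_lower (p := p) (z := z) hp.two_le
      exact_mod_cast (show z ≤ lev p z by nlinarith)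
    have h4 := loglog_anti hz16 hzl
    have h5 := (hpos z hz).le
    calc C * (Real.log (Real.log (lev p z : ℕ)) / Real.log (lev p z : ℕ))
        ≤ C * (Real.log (Real.log z) / Real.log z) := by gcongr
      _ ≤ _ := by
        apply mul_le_mul_of_nonneg_right _ h5
        linarith

/-- A descent ends above the earlier levels with probability at least `c`. -/
theorem win {p : ℕ} (hp : p.Prime) : ∃ c : ℝ, 0 < c ∧ ∃ z₁ : ℕ, ∀ z ≥ z₁,
    ∀ {Ω : Type} [MeasurableSpace Ω] (μ : Measure Ω) [IsProbabilityMeasure μ]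
      (T : ℕ × ℕ × ℕ → Ω → ℕ), Res μ T → c ≤ Pr μ T {f | WinRun p (cur f) z} := by
  have hp1 : 1 ≤ p := hp.one_lt.le
  have hε : (0 : ℝ) < 1 / (8 * p) := by
    have : (0 : ℝ) < p := by exact_mod_cast hp.pos
    positivity
  obtain ⟨C₁, hC₁, hexc⟩ := exc' hp hε
  obtain ⟨c, hc, z₁, hpar⟩ := params' hp hC₁
  refine ⟨c, hc, z₁ + 2, ?_⟩
  intro z hz Ω _ μ _ T h
  obtain ⟨j, y, G, hG, hy, hj, hbound⟩ := hpar z (by omega)
  have hlow := pow_succ_lower (p := p) (z := z) hp.two_le (by omega)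
  set Y := lev p z with hY
  have hx : (z + 1) ^ p - 1 = Y - z - 1 := by
    rw [hY, lev]; omega
  have hlp : lev p (z - 1) = z ^ p + z - 1 := by
    unfold lev
    rw [Nat.sub_add_cancel (by omega : 1 ≤ z)]; omega
  have hη : 0 ≤ C₁ * y * (Y : ℝ) ^ (1 / (8 * p) : ℝ) / G := by positivity
  have hE : ∀ x c, x ≤ Y → y ≤ x → μ.real {ω | ∃ i < y,
      (∀ i' < i, jump p (res T ω c) (x - i') = 1) ∧ G ≤ jump p (res T ω c) (x - i)}
        ≤ C₁ * y * (Y : ℝ) ^ (1 / (8 * p) : ℝ) / G := by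
    intro x c hxY hyx
    refine (hexc μ T h x c y G hG hyx).trans ?_
    have : (x : ℝ) ^ (1 / (8 * p) : ℝ) ≤ (Y : ℝ) ^ (1 / (8 * p) : ℝ) :=
      Real.rpow_le_rpow (by positivity) (by exact_mod_cast hxY) hε.le
    gcongr
  have hmain := main_induction hp h (M := Y + 2) (L := Y) (X := lev p (z - 1) + 1) (y := y) (G := G)
    (by omega) hη hE j ((z + 1) ^ p - 1) Y (by
      rw [hlp]
      omega) (by omega) (by omega)
  have hb := hmain.trans hbound
  have hmeas : MeasurableSet {ω | ¬ (lev p (z - 1) + 1 ≤ fin p (res T ω) ((z + 1) ^ p - 1) Y ∧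
      Sv p (Y + 2) (res T ω) (fin p (res T ω) ((z + 1) ^ p - 1) Y))} :=
    dep_meas h.meas (dep_bad_win p ((z + 1) ^ p - 1) Y (Y + 2) (lev p (z - 1) + 1) (by omega))
  have hc1 : c ≤ μ.real {ω | ¬ (lev p (z - 1) + 1 ≤ fin p (res T ω) ((z + 1) ^ p - 1) Y ∧
      Sv p (Y + 2) (res T ω) (fin p (res T ω) ((z + 1) ^ p - 1) Y))}ᶜ := by
    rw [probReal_compl_eq_one_sub hmeas]
    linarith
  refine hc1.trans (measureReal_mono ?_ (measure_ne_top _ _))
  intro ω hω
  rw [Set.mem_compl_iff, Set.mem_ofPred_eq, not_not] at hω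
  have e := nextZero_eq hp1 (res T ω) (z := z) (by omega)
  show WinRun p (res T ω) z
  rw [WinRun, e]
  exact ⟨hω.1, hω.2⟩

end Pool.Agent.L5helper32.GP
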