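import Pool.Agent.L5helper32.GP.Seq
import Pool.Agent.L5helper32.GP.Win
import Pool.Agent.L5helper32.GP.ZeroOne
import Pool.Agent.L5helper46.GPFresh
import Pool.Agent.L5helper41.GPInfOften
import Pool.Agent.L5helper83.GR2Num

/-!
# Almost surely all but finitely many descents are good
-/

set_option autoImplicit false

open Finset MeasureTheory ProbabilityTheory

namespace Pool.Agent.L5helper32.GP

open Pool.Agent.L5helper32.GR (Root w pr sg Dep lev q)

variable {Ω : Type} [MeasurableSpace Ω] {μ : Measure Ω} [IsProbabilityMeasure μ]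
  {T : ℕ × ℕ × ℕ → Ω → ℕ}

theorem ag_map (hm : ∀ i, Measurable (T i)) : Measurable fun ω => fun i => T i ω :=
  measurable_pi_lambda _ hm

theorem ag_Pr_mono {A B : Set (ℕ × ℕ × ℕ → ℕ)} (h : A ⊆ B) : Pr μ T A ≤ Pr μ T B :=
  measureReal_mono (fun ω hω => h hω) (measure_ne_top _ _)

theorem ag_Pr_nonneg {A : Set (ℕ × ℕ × ℕ → ℕ)} : 0 ≤ Pr μ T A := measureReal_nonneg

theorem ag_Pr_union_le {A B C : Set (ℕ × ℕ × ℕ → ℕ)} (h : A ⊆ B ∪ C) :
    Pr μ T A ≤ Pr μ T B + Pr μ T C := by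
  refine (ag_Pr_mono h).trans ?_
  exact measureReal_union_le {ω | (fun i => T i ω) ∈ B} {ω | (fun i => T i ω) ∈ C}

theorem ag_Pr_biUnion_le (s : Finset ℕ) (A : ℕ → Set (ℕ × ℕ × ℕ → ℕ)) {B : Set (ℕ × ℕ × ℕ → ℕ)}
    (h : ∀ f ∈ B, ∃ n ∈ s, f ∈ A n) : Pr μ T B ≤ ∑ n ∈ s, Pr μ T (A n) := by
  have h1 : {ω | (fun i => T i ω) ∈ B} ⊆ ⋃ n ∈ s, {ω | (fun i => T i ω) ∈ A n} := by
    intro ω hω
    obtain ⟨n, hn, hf⟩ := h _ hω
    simp only [Set.mem_iUnion]
    exact ⟨n, hn, hf⟩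
  exact (measureReal_mono h1 (measure_ne_top _ _)).trans (measureReal_biUnion_finset_le _ _)

theorem ag_Pr_sum_le (hm : ∀ i, Measurable (T i)) (s : Finset ℕ) (A : ℕ → Set (ℕ × ℕ × ℕ → ℕ))
    (hA : ∀ n ∈ s, MeasurableSet (A n))
    (hd : ∀ n n' : ℕ, ∀ f, f ∈ A n → f ∈ A n' → n = n') {B : Set (ℕ × ℕ × ℕ → ℕ)}
    (hB : ∀ n ∈ s, A n ⊆ B) : ∑ n ∈ s, Pr μ T (A n) ≤ Pr μ T B := by
  have h1 : ∑ n ∈ s, Pr μ T (A n) = μ.real (⋃ n ∈ s, {ω | (fun i => T i ω) ∈ A n}) := by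
    rw [measureReal_biUnion_finset]
    · rfl
    · intro n _ n' _ hne
      rw [Function.onFun, Set.disjoint_left]
      intro ω h1 h2
      exact hne (hd n n' _ h1 h2)
    · intro n hn
      exact ag_map hm (hA n hn)
  rw [h1]
  apply measureReal_mono _ (measure_ne_top _ _)
  intro ω hω
  simp only [Set.mem_iUnion] at hω
  obtain ⟨n, hn, hf⟩ := hω
  exact hB n hn hf

theorem ag_badK_mono {p : ℕ} (f : ℕ × ℕ × ℕ → ℕ) : ∀ k z : ℕ, BadK p f k z → BadK p f (k + 1) z := by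
  intro k
  induction k with
  | zero => intro z h; exact h.elim
  | succ k ih =>
    intro z h
    rcases h with h | h
    · exact Or.inl h
    · exact Or.inr (ih _ h)

/-- A bound for all `k` is a bound for the union over `k`. -/
theorem ag_iUnion_le {A : Set (ℕ × ℕ × ℕ → ℕ)} {p n : ℕ} {x : ℝ} (hx : 0 ≤ x)
    (h : ∀ k, Pr μ T {f | f ∈ A ∧ BadK p f k n} ≤ x) :
    Pr μ T {f | f ∈ A ∧ ∃ k, BadK p f k n} ≤ x := by
  have h1 : {ω | (fun i => T i ω) ∈ {f : ℕ × ℕ × ℕ → ℕ | f ∈ A ∧ ∃ k, BadK p f k n}} =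
      ⋃ k, {ω | (fun i => T i ω) ∈ {f : ℕ × ℕ × ℕ → ℕ | f ∈ A ∧ BadK p f k n}} := by
    ext ω
    simp only [Set.mem_ofPred_eq, Set.mem_iUnion]
    constructor
    · rintro ⟨ha, k, hk⟩; exact ⟨k, ha, hk⟩
    · rintro ⟨k, ha, hk⟩; exact ⟨ha, k, hk⟩
  have hmono : Monotone fun k => {ω | (fun i => T i ω) ∈ {f : ℕ × ℕ × ℕ → ℕ | f ∈ A ∧ BadK p f k n}} := by
    apply monotone_nat_of_le_succ
    intro k ω hω
    exact ⟨hω.1, ag_badK_mono _ k n hω.2⟩
  unfold Pr
  rw [h1, Measure.real, hmono.measure_iUnion]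
  apply ENNReal.toReal_le_of_le_ofReal hx
  apply iSup_le
  intro k
  rw [← ENNReal.ofReal_toReal (measure_ne_top μ _)]
  exact ENNReal.ofReal_le_ofReal (h k)

theorem ag_dep_inter {S S' S'' : Finset (ℕ × ℕ × ℕ)} {A B : Set (ℕ × ℕ × ℕ → ℕ)} (hA : Dep S A)
    (hB : Dep S' B) (h : S ⊆ S'') (h' : S' ⊆ S'') : Dep S'' (A ∩ B) := by
  intro f g hfg
  rw [Set.mem_inter_iff, Set.mem_inter_iff, hA f g fun i hi => hfg i (h hi),
    hB f g fun i hi => hfg i (h' hi)]

theorem ag_dep_mono {S S' : Finset (ℕ × ℕ × ℕ)} {A : Set (ℕ × ℕ × ℕ → ℕ)} (hA : Dep S A)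
    (h : S ⊆ S') : Dep S' A := fun f g hfg => hA f g fun i hi => hfg i (h hi)

/-- The event that all but finitely many descents are good. -/
def AG (p : ℕ) : Set (ℕ × ℕ × ℕ → ℕ) :=
  {f | ∀ᶠ z in Filter.atTop, dseq p (cur f) z = 0 → GoodRun p (cur f) z}

theorem ag_measurable {p : ℕ} (hp : 1 ≤ p) : MeasurableSet (AG p) := by
  have e : AG p = ⋃ N : ℕ, ⋂ z : ℕ, ⋂ (_ : N + 1 ≤ z),
      ({f : ℕ × ℕ × ℕ → ℕ | dseq p (cur f) z = 0}ᶜ ∪ {f : ℕ × ℕ × ℕ → ℕ | GoodRun p (cur f) z}) := by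
    ext f
    simp only [AG, Set.mem_ofPred_eq, Set.mem_iUnion, Set.mem_iInter, Filter.eventually_atTop,
      Set.mem_union, Set.mem_compl_iff]
    constructor
    · rintro ⟨N, hN⟩
      refine ⟨N, fun z hz => ?_⟩
      have := hN z (by omega)
      tauto
    · rintro ⟨N, hN⟩
      refine ⟨N + 1, fun z hz h0 => ?_⟩
      have := hN z hz
      tauto
  rw [e]
  apply MeasurableSet.iUnion; intro N
  apply MeasurableSet.iInter; intro z
  apply MeasurableSet.iInter; intro hz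
  exact (dep_measurable (dep_dseq hp z)).compl.union (dep_measurable (dep_goodrun hp (by omega)))

/-- One descent which ends above the earlier levels, and then only good descents. -/
theorem ag_step {p : ℕ} (hp : p.Prime) (h : Res μ T) {c : ℝ} {Z z L : ℕ} (hZ : 3 ≤ Z)
    (hz : Z ≤ z) (hL : L = lev p (z - 1))
    (hwin : c ≤ Pr μ T {f | WinRun p (cur f) z})
    (hlev : ∀ z ≥ Z, ∀ n : ℕ, lev p z ≤ 4 * n → lev p z < (lev p n + 3) / 4 ∧ z < n)
    (hlw : ∀ z ≥ Z, ∀ n : ℕ, lev p (z - 1) < n → lev p z ≤ 4 * n)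
    (hfresh : ∀ k z : ℕ, Z ≤ z → ∀ (R : ℕ) (A : Set (ℕ × ℕ × ℕ → ℕ)),
      Dep (bx (range ((lev p z + 3) / 4)) R) A →
      Pr μ T {f | f ∈ A ∧ BadK p f k z} ≤ 1 / 2 * Pr μ T A)
    {D : Set (ℕ × ℕ × ℕ → ℕ)} (hD : Dep (bx (range (L + 1)) (L + 1)) D)
    (hD0 : ∀ f ∈ D, dseq p (cur f) z = 0) : c / 2 * Pr μ T D ≤ Pr μ T (D ∩ AG p) := by
  have hp1 : 1 ≤ p := hp.one_lt.le
  have hz1 : 1 ≤ z := by omega
  have hLz : L ≤ lev p z := by
    rw [hL]; unfold lev
    have : (z - 1 + 1) ^ p ≤ (z + 1) ^ p := Nat.pow_le_pow_left (by omega) p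
    omega
  -- the win
  have h1 : Pr μ T (D ∩ {f | WinRun p (cur f) z}) = Pr μ T D * Pr μ T {f | WinRun p (cur f) z} := by
    have hdis : Disjoint (bx (range (L + 1)) (L + 1))
        (bx (Icc (L + 1) (lev p z)) (lev p z + 3)) := by
      rw [Finset.disjoint_left]
      rintro ⟨a, b, c⟩ h1 h2
      simp only [bx, mem_product, mem_range, mem_Icc] at h1 h2
      omega
    exact GR.dep_indep h.meas h.indep hdis hD (hL ▸ dep_winrun hp1 hz1)
  have h2 : c * Pr μ T D ≤ Pr μ T (D ∩ {f | WinRun p (cur f) z}) := by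
    rw [h1, mul_comm]
    exact mul_le_mul_of_nonneg_left hwin ag_Pr_nonneg
  -- the sum over the next zero
  have h3 : Pr μ T (D ∩ {f | WinRun p (cur f) z}) ≤ ∑ n ∈ range (lev p z + 1),
      Pr μ T (D ∩ {f | WinRun p (cur f) z ∧ nextZero p (cur f) z = n}) := by
    apply ag_Pr_biUnion_le
    intro f hf
    refine ⟨nextZero p (cur f) z, ?_, hf.1, hf.2, rfl⟩
    have := nextZero_le hp1 (cur f) hz1
    simp only [mem_range]; omega
  have h4 : ∀ n ∈ range (lev p z + 1),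
      1 / 2 * Pr μ T (D ∩ {f | WinRun p (cur f) z ∧ nextZero p (cur f) z = n}) ≤
        Pr μ T (D ∩ AG p ∩ {f | WinRun p (cur f) z ∧ nextZero p (cur f) z = n}) := by
    intro n hn
    rcases le_or_gt n L with hle | hlt
    · have he : D ∩ {f | WinRun p (cur f) z ∧ nextZero p (cur f) z = n} = ∅ := by
        ext f
        simp only [Set.mem_inter_iff, Set.mem_ofPred_eq, Set.mem_empty_iff_false, iff_false]
        rintro ⟨_, hw, hnz⟩
        have := hw.1
        omega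
      have : Pr μ T (∅ : Set (ℕ × ℕ × ℕ → ℕ)) = 0 := by
        unfold Pr; simp
      rw [he, this, mul_zero]
      exact ag_Pr_nonneg
    · have hl1 := hlw z hz n (hL ▸ hlt)
      have hl2 := hlev z hz n hl1
      set A' := D ∩ {f | WinRun p (cur f) z ∧ nextZero p (cur f) z = n} with hA'
      have hdep : Dep (bx (range ((lev p n + 3) / 4)) (lev p z + 3)) A' := by
        apply ag_dep_inter hD (dep_winrun_eq hp1 hz1 n)
        · intro i hi
          simp only [bx, mem_product, mem_range] at hi ⊢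
          omega
        · intro i hi
          simp only [bx, mem_product, mem_range, mem_Icc] at hi ⊢
          omega
      have h5 := fun k => hfresh k n (by omega) _ A' hdep
      have h6 := ag_iUnion_le (by have := ag_Pr_nonneg (μ := μ) (T := T) (A := A'); positivity) h5
      have h7 : Pr μ T A' ≤ Pr μ T (D ∩ AG p ∩ {f | WinRun p (cur f) z ∧ nextZero p (cur f) z = n}) +
          Pr μ T {f | f ∈ A' ∧ ∃ k, BadK p f k n} := by
        apply ag_Pr_union_le
        intro f hf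
        by_cases hb : ∃ k, BadK p f k n
        · right; exact ⟨hf, hb⟩
        · left
          push Not at hb
          have hs := dseq_next hp1 (cur f) hz1 (hD0 f hf.1)
          rw [hf.2.2] at hs
          have hg := good_of_not_badK hp1 (n := n) (by omega) hs.1 hb
          refine ⟨⟨hf.1, ?_⟩, hf.2⟩
          simp only [AG, Set.mem_ofPred_eq, Filter.eventually_atTop]
          exact ⟨n, fun z' hz' h0 => hg z' hz' h0⟩
      linarith
  have h8 : ∑ n ∈ range (lev p z + 1), Pr μ T (D ∩ AG p ∩ {f | WinRun p (cur f) z ∧ nextZero p (cur f) z = n}) ≤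
      Pr μ T (D ∩ AG p) := by
    apply ag_Pr_sum_le h.meas
    · intro n _
      exact ((dep_measurable hD).inter (ag_measurable hp1)).inter
        (dep_measurable (dep_winrun_eq hp1 hz1 n))
    · intro n n' f hf hf'
      have e1 : nextZero p (cur f) z = n := hf.2.2
      have e2 : nextZero p (cur f) z = n' := hf'.2.2
      omega
    · intro n _ f hf
      exact hf.1
  calc c / 2 * Pr μ T D = 1 / 2 * (c * Pr μ T D) := by ring
    _ ≤ 1 / 2 * ∑ n ∈ range (lev p z + 1),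
      Pr μ T (D ∩ {f | WinRun p (cur f) z ∧ nextZero p (cur f) z = n}) := by
        have := h2.trans h3
        linarith
    _ = ∑ n ∈ range (lev p z + 1),
      1 / 2 * Pr μ T (D ∩ {f | WinRun p (cur f) z ∧ nextZero p (cur f) z = n}) := by
        rw [Finset.mul_sum]
    _ ≤ _ := Finset.sum_le_sum h4
    _ ≤ _ := h8

/-- Almost surely all but finitely many descents are good. -/
theorem all_good {p : ℕ} (hp : p.Prime) (h : Res μ T) :
    ∀ᵐ ω ∂μ, ∀ᶠ z in Filter.atTop, dseq p (res T ω) z = 0 → GoodRun p (res T ω) z := by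
  have hp1 : 1 ≤ p := hp.one_lt.le
  obtain ⟨C, hC, hone⟩ := one hp
  obtain ⟨z₂, hψ⟩ := GR.psi_bound hp.two_le
  obtain ⟨z₃, hψ2⟩ := GR.psi_tendsto (4 * C)
  obtain ⟨z₄, hlev⟩ := GR.lev_good hp.two_le
  obtain ⟨z₅, hlw⟩ := GR.lev_win hp.two_le
  obtain ⟨c, hc, z₁, hwin⟩ := win hp
  set Z := z₁ + z₂ + z₃ + z₄ + z₅ + 3 with hZ
  have hpos : ∀ z : ℕ, 3 ≤ z → 0 ≤ Real.log (Real.log z) / Real.log z := by
    intro z hz
    have h1 : 1 < Real.log z := by
      rw [Real.lt_log_iff_exp_lt (by positivity)]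
      have he : Real.exp 1 < 2.7182818286 := Real.exp_one_lt_d9
      have : (3 : ℝ) ≤ z := by exact_mod_cast hz
      linarith
    exact (div_pos (Real.log_pos h1) (by linarith)).le
  have hfr := fresh hp h (δ := fun z : ℕ => C * (Real.log (Real.log z) / Real.log z))
    (ψ := fun z : ℕ => 4 * C * (Real.log (Real.log z) / Real.log z)) (z₂ := Z) (by omega)
    (by
      intro z hz
      exact hone z (by omega) μ T h)
    (by
      intro z hz
      have := hpos z (by omega)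
      positivity)
    (by
      intro z hz z' hz'
      have := hψ z (by omega) z' hz'
      have h2 := mul_le_mul_of_nonneg_left this hC.le
      linarith)
    (by
      intro z hz n hn
      exact hlev z (by omega) n hn)
  have hfr2 : ∀ k z : ℕ, Z ≤ z → ∀ (R : ℕ) (A : Set (ℕ × ℕ × ℕ → ℕ)),
      Dep (bx (range ((lev p z + 3) / 4)) R) A →
      Pr μ T {f | f ∈ A ∧ BadK p f k z} ≤ 1 / 2 * Pr μ T A := by
    intro k z hz R A hA
    refine (hfr k z hz R A hA).trans ?_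
    exact mul_le_mul_of_nonneg_right (hψ2 z (by omega)) ag_Pr_nonneg
  refine zero_one h.meas (A := AG p) (ag_measurable hp1) (c := c / 2) (by positivity) ?_
  intro m B hB
  set m' := m + Z with hm'
  have hm2 : 2 ≤ m' := by omega
  have hlevm : ∀ z, m' < z → m ≤ lev p (z - 1) := by
    intro z hz
    have h1 := GR.lev_lower (p := p) (z := z - 1) hp.two_le
    have h2 : z - 1 ≤ (z - 1) ^ 2 + 3 * (z - 1) + 1 := by nlinarith [Nat.zero_le ((z - 1) ^ 2)]
    omega
  have h1 : Pr μ T B ≤ ∑ z ∈ Ioc m' (lev p m'), Pr μ T (B ∩ FZ p m' z) := by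
    apply ag_Pr_biUnion_le
    intro f hf
    obtain ⟨z, hz, hfz⟩ := exists_FZ hp1 hm2 f
    exact ⟨z, hz, hf, hfz⟩
  have hdep : ∀ z ∈ Ioc m' (lev p m'),
      Dep (bx (range (lev p (z - 1) + 1)) (lev p (z - 1) + 1)) (B ∩ FZ p m' z) := by
    intro z hz
    rw [mem_Ioc] at hz
    have := hlevm z hz.1
    apply ag_dep_inter hB (dep_FZ hp1 m' z)
    · intro i hi
      simp only [bx, mem_product, mem_range] at hi ⊢
      omega
    · exact fun i hi => hi
  have h2 : ∀ z ∈ Ioc m' (lev p m'), c / 2 * Pr μ T (B ∩ FZ p m' z) ≤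
      Pr μ T (B ∩ FZ p m' z ∩ AG p) := by
    intro z hz
    have hz' := mem_Ioc.1 hz
    refine ag_step hp h (Z := Z) (z := z) (L := lev p (z - 1)) (by omega) (by omega) rfl
      (hwin z (by omega) μ T h) (fun z hz => hlev z (by omega)) (fun z hz => hlw z (by omega))
      hfr2 (hdep z hz) ?_
    intro f hf
    exact hf.2.2.1
  have h3 : ∑ z ∈ Ioc m' (lev p m'), Pr μ T (B ∩ FZ p m' z ∩ AG p) ≤ Pr μ T (B ∩ AG p) := by
    apply ag_Pr_sum_le h.meas
    · intro z hz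
      exact (dep_measurable (hdep z hz)).inter (ag_measurable hp1)
    · intro z z' f hf hf'
      exact FZ_unique hf.1.2 hf'.1.2
    · intro z _ f hf
      exact ⟨hf.1.1, hf.2⟩
  calc c / 2 * Pr μ T B ≤ c / 2 * ∑ z ∈ Ioc m' (lev p m'), Pr μ T (B ∩ FZ p m' z) := by
        apply mul_le_mul_of_nonneg_left h1; positivity
    _ = ∑ z ∈ Ioc m' (lev p m'), c / 2 * Pr μ T (B ∩ FZ p m' z) := by rw [Finset.mul_sum]
    _ ≤ _ := Finset.sum_le_sum h2
    _ ≤ _ := h3

end Pool.Agent.L5helper32.GP
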