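import Pool.Agent.L5helper32.GP.Defs
import Pool.Agent.L5helper32.GR.Roots
import Pool.Agent.L5helper83.GPFactor
import Pool.Agent.L5helper78.GPRoots
import Pool.Agent.L5helper58.GPRoots

set_option autoImplicit false

open Finset MeasureTheory ProbabilityTheory

namespace Pool.Agent.L5helper32.GP

open Pool.Agent.L5helper32.GR (Root w pr sg Dep lev q)

variable {Ω : Type} [MeasurableSpace Ω] {μ : Measure Ω} [IsProbabilityMeasure μ]
  {T : ℕ × ℕ × ℕ → Ω → ℕ}

theorem prob_none (h : Res μ T) (p c : ℕ) (R : Finset ℕ) (hR : ∀ r ∈ R, r.Prime) :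
    μ.real {ω | ∀ r ∈ R, ¬ Root p r (res T ω c r 0)} = ∏ r ∈ R, (1 - (w p r : ℝ) / r) :=
  GR.prob_none h.zero p c R hR

theorem prob_root (h : Res μ T) (p c : ℕ) {r : ℕ} (hr : r.Prime) :
    μ.real {ω | Root p r (res T ω c r 0)} = (w p r : ℝ) / r :=
  GR.prob_root h.zero p c hr

theorem prob_gap (h : Res μ T) (p c a b : ℕ) :
    μ.real {ω | (∀ r ∈ pr 0 a, ¬ Root p r (res T ω c r 0)) ∧
      ∃ r ∈ pr a b, Root p r (res T ω c r 0)} = sg p 0 a * (1 - sg p a b) :=
  GR.prob_gap h.zero p c a b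

/-- The factor of the jump at the prime `r` has small expectation: it is `r ^ k` with probability at
most `4 p / r ^ k`. -/
theorem prob_factor {p : ℕ} (hp : p.Prime) (h : Res μ T) (c v k : ℕ) (hk : k ≤ v) {r : ℕ}
    (hr : r.Prime) :
    μ.real {ω | r ^ k ∣ (tr (res T ω c) r v + 1) ^ p - 1} ≤ 4 * p / (r : ℝ) ^ k :=
  Factor.prob_factor_of h c v k hk hr (fun _ ht => prob_tr h c k hr ht) (card_roots hp hr k)

end Pool.Agent.L5helper32.GP
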